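import Pool.Agent.H87.SN.Targets

/-!
# Row BO1 of the board snk (helper87, MP_2697e3_an)

Bochner formula for smooth maps whose Laplacian is normal to the image.
-/

namespace Pool.Agent.H13.SN

open Pool.Agent.H87.SN
open MeasureTheory Metric Set Filter Topology
open scoped ContDiff RealInnerProductSpace

variable {n m : ℕ}

theorem smooth_fderiv {F : Type*} [NormedAddCommGroup F] [NormedSpace ℝ F] {U : Set (E n)}
    {f : E n → F} (hU : IsOpen U) (hf : ContDiffOn ℝ ∞ f U) : ContDiffOn ℝ ∞ (fderiv ℝ f) U :=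
  hf.fderiv_of_isOpen hU (by simp)

theorem smooth_app {F G : Type*} [NormedAddCommGroup F] [NormedSpace ℝ F] [NormedAddCommGroup G]
    [NormedSpace ℝ G] {U : Set (E n)} {f : E n → F →L[ℝ] G} (hf : ContDiffOn ℝ ∞ f U) (v : F) :
    ContDiffOn ℝ ∞ (fun x => f x v) U :=
  hf.clm_apply contDiffOn_const

theorem diffAt {F : Type*} [NormedAddCommGroup F] [NormedSpace ℝ F] {U : Set (E n)}
    {f : E n → F} (hU : IsOpen U) (hf : ContDiffOn ℝ ∞ f U) {x : E n} (hx : x ∈ U) :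
    DifferentiableAt ℝ f x :=
  ((hf x hx).contDiffAt (hU.mem_nhds hx)).differentiableAt (by simp)

theorem fderiv_app {F G : Type*} [NormedAddCommGroup F] [NormedSpace ℝ F] [NormedAddCommGroup G]
    [NormedSpace ℝ G] {f : E n → F →L[ℝ] G} {x : E n} (hf : DifferentiableAt ℝ f x) (v : F)
    (w : E n) : fderiv ℝ (fun y => f y v) x w = fderiv ℝ f x w v := by
  have h := hf.hasFDerivAt.clm_apply (hasFDerivAt_const v x)
  rw [h.fderiv]
  simp

theorem symm2 {F : Type*} [NormedAddCommGroup F] [NormedSpace ℝ F] {U : Set (E n)}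
    {f : E n → F} (hU : IsOpen U) (hf : ContDiffOn ℝ ∞ f U) {x : E n} (hx : x ∈ U) (a b : E n) :
    fderiv ℝ (fderiv ℝ f) x a b = fderiv ℝ (fderiv ℝ f) x b a := by
  have h0 : ContDiffAt ℝ 2 f x :=
    ((hf x hx).contDiffAt (hU.mem_nhds hx)).of_le
      (WithTop.coe_le_coe.mpr (le_top : (2 : ℕ∞) ≤ ⊤))
  have h := h0.isSymmSndFDerivAt (by simp)
  exact h a b

theorem symm3 {F : Type*} [NormedAddCommGroup F] [NormedSpace ℝ F] {U : Set (E n)}
    {f : E n → F} (hU : IsOpen U) (hf : ContDiffOn ℝ ∞ f U) {x : E n} (hx : x ∈ U)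
    (w a b : E n) :
    fderiv ℝ (fderiv ℝ (fderiv ℝ f)) x w a b = fderiv ℝ (fderiv ℝ (fderiv ℝ f)) x w b a := by
  have h1 := smooth_fderiv hU hf
  have h2 := smooth_fderiv hU h1
  have key : ∀ a b : E n, fderiv ℝ (fun y => fderiv ℝ (fderiv ℝ f) y a b) x w =
      fderiv ℝ (fderiv ℝ (fderiv ℝ f)) x w a b := by
    intro a b
    rw [fderiv_app (f := fun y => fderiv ℝ (fderiv ℝ f) y a)
      (diffAt hU (smooth_app h2 a) hx) b w, fderiv_app (diffAt hU h2 hx) a w]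
  rw [← key a b, ← key b a]
  have he : (fun y => fderiv ℝ (fderiv ℝ f) y a b) =ᶠ[𝓝 x]
      (fun y => fderiv ℝ (fderiv ℝ f) y b a) := by
    filter_upwards [hU.mem_nhds hx] with y hy
    exact symm2 hU hf hy a b
  rw [he.fderiv_eq]

/-- `∂_v q = 2 ∑ ⟨D_i u, D_v D_i u⟩`. -/
theorem dq {U : Set (E n)} {u : E n → E m} (hU : IsOpen U) (hu : ContDiffOn ℝ ∞ u U) {x : E n}
    (hx : x ∈ U) (v : E n) :
    fderiv ℝ (fun y => nsq (fderiv ℝ u y)) x v =
      ∑ i : Fin n, 2 * ⟪fderiv ℝ u x (bv i), fderiv ℝ (fderiv ℝ u) x v (bv i)⟫ := by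
  have h1 := smooth_fderiv hU hu
  have hd : ∀ i : Fin n, DifferentiableAt ℝ (fun y => fderiv ℝ u y (bv i)) x :=
    fun i => diffAt hU (smooth_app h1 _) hx
  have hfun : (fun y => nsq (fderiv ℝ u y)) =
      fun y => ∑ i : Fin n, ⟪fderiv ℝ u y (bv i), fderiv ℝ u y (bv i)⟫ := by
    funext y
    unfold nsq
    refine Finset.sum_congr rfl (fun i _ => ?_)
    rw [real_inner_self_eq_norm_sq]
  rw [hfun, fderiv_fun_sum (fun i _ => (hd i).inner ℝ (hd i)), sum_apply]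
  refine Finset.sum_congr rfl (fun i _ => ?_)
  rw [fderiv_inner_apply ℝ (hd i) (hd i), fderiv_app (diffAt hU h1 hx), real_inner_comm]
  ring

theorem pf_BO1 : T_BO1 := by
  intro n m U u hU hu hO
  have h1 := smooth_fderiv hU hu
  have h2 := smooth_fderiv hU h1
  have h3 := smooth_fderiv hU h2
  have hq : ContDiffOn ℝ ∞ (fun x => nsq (fderiv ℝ u x)) U := by
    unfold nsq
    exact ContDiffOn.sum (fun i _ => (smooth_app h1 (bv i)).norm_sq ℝ)
  refine ⟨hq, fun x hx => ⟨?_, ?_⟩⟩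
  · -- the Laplacian
    have hqd := smooth_fderiv hU hq
    have hterm : ∀ k : Fin n, fderiv ℝ (fderiv ℝ (fun y => nsq (fderiv ℝ u y))) x (bv k) (bv k) =
        ∑ i : Fin n, 2 * (⟪fderiv ℝ u x (bv i),
            fderiv ℝ (fderiv ℝ (fderiv ℝ u)) x (bv k) (bv k) (bv i)⟫ +
          ‖fderiv ℝ (fderiv ℝ u) x (bv k) (bv i)‖ ^ 2) := by
      intro k
      rw [← fderiv_app (diffAt hU hqd hx) (bv k) (bv k)]
      have he : (fun y => fderiv ℝ (fun y => nsq (fderiv ℝ u y)) y (bv k)) =ᶠ[𝓝 x]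
          fun y => ∑ i : Fin n,
            2 * ⟪fderiv ℝ u y (bv i), fderiv ℝ (fderiv ℝ u) y (bv k) (bv i)⟫ := by
        filter_upwards [hU.mem_nhds hx] with y hy
        exact dq hU hu hy (bv k)
      have hd : ∀ i : Fin n, DifferentiableAt ℝ (fun y => fderiv ℝ u y (bv i)) x :=
        fun i => diffAt hU (smooth_app h1 _) hx
      have hd2 : ∀ i : Fin n,
          DifferentiableAt ℝ (fun y => fderiv ℝ (fderiv ℝ u) y (bv k) (bv i)) x :=
        fun i => diffAt hU (smooth_app (smooth_app h2 _) _) hx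
      rw [he.fderiv_eq, fderiv_fun_sum (fun i _ => ((hd i).inner ℝ (hd2 i)).const_mul 2),
        sum_apply]
      refine Finset.sum_congr rfl (fun i _ => ?_)
      rw [fderiv_const_mul ((hd i).inner ℝ (hd2 i)), smul_apply,
        fderiv_inner_apply ℝ (hd i) (hd2 i), fderiv_app (diffAt hU h1 hx),
        fderiv_app (f := fun y => fderiv ℝ (fderiv ℝ u) y (bv k))
          (diffAt hU (smooth_app h2 _) hx), fderiv_app (diffAt hU h2 hx),
        real_inner_self_eq_norm_sq, smul_eq_mul]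
    -- tangency of the Laplacian, differentiated
    have hlap : ∀ i : Fin n, fderiv ℝ (lap u) x (bv i) =
        ∑ k : Fin n, fderiv ℝ (fderiv ℝ (fderiv ℝ u)) x (bv i) (bv k) (bv k) := by
      intro i
      have hl : lap u = fun y => ∑ k : Fin n, fderiv ℝ (fderiv ℝ u) y (bv k) (bv k) := rfl
      rw [hl, fderiv_fun_sum (fun k _ => diffAt hU (smooth_app (smooth_app h2 _) _) hx),
        sum_apply]
      refine Finset.sum_congr rfl (fun k _ => ?_)
      rw [fderiv_app (f := fun y => fderiv ℝ (fderiv ℝ u) y (bv k))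
          (diffAt hU (smooth_app h2 _) hx), fderiv_app (diffAt hU h2 hx)]
    have hlapd : DifferentiableAt ℝ (lap u) x := by
      have hl : lap u = fun y => ∑ k : Fin n, fderiv ℝ (fderiv ℝ u) y (bv k) (bv k) := rfl
      rw [hl]
      exact DifferentiableAt.fun_sum (fun k _ => diffAt hU (smooth_app (smooth_app h2 _) _) hx)
    have horth : ∀ i : Fin n, ⟪fderiv ℝ u x (bv i), fderiv ℝ (lap u) x (bv i)⟫ +
        ⟪fderiv ℝ (fderiv ℝ u) x (bv i) (bv i), lap u x⟫ = 0 := by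
      intro i
      have he : (fun y => ⟪fderiv ℝ u y (bv i), lap u y⟫) =ᶠ[𝓝 x] fun _ => (0 : ℝ) := by
        filter_upwards [hU.mem_nhds hx] with y hy
        exact hO y hy (bv i)
      have h0 : fderiv ℝ (fun y => ⟪fderiv ℝ u y (bv i), lap u y⟫) x (bv i) =
          fderiv ℝ (fun _ : E n => (0 : ℝ)) x (bv i) :=
        congrArg (fun L : E n →L[ℝ] ℝ => L (bv i)) he.fderiv_eq
      rw [fderiv_inner_apply ℝ (diffAt hU (smooth_app h1 _) hx) hlapd,
        fderiv_app (diffAt hU h1 hx)] at h0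
      rw [h0]
      simp
    have hsum : ∑ i : Fin n, ⟪fderiv ℝ u x (bv i), fderiv ℝ (lap u) x (bv i)⟫ =
        -‖lap u x‖ ^ 2 := by
      have hs := Finset.sum_eq_zero (s := Finset.univ) (fun i _ => horth i)
      rw [Finset.sum_add_distrib, ← sum_inner] at hs
      have hl : ∑ i : Fin n, fderiv ℝ (fderiv ℝ u) x (bv i) (bv i) = lap u x := rfl
      rw [hl, real_inner_self_eq_norm_sq] at hs
      linarith
    have hL : lap (fun y => nsq (fderiv ℝ u y)) x =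
        ∑ k : Fin n, fderiv ℝ (fderiv ℝ (fun y => nsq (fderiv ℝ u y))) x (bv k) (bv k) := rfl
    rw [hL, Finset.sum_congr rfl (fun k _ => hterm k)]
    have hswap : ∀ k i : Fin n, fderiv ℝ (fderiv ℝ (fderiv ℝ u)) x (bv k) (bv k) (bv i) =
        fderiv ℝ (fderiv ℝ (fderiv ℝ u)) x (bv i) (bv k) (bv k) := by
      intro k i
      rw [symm3 hU hu hx (bv k) (bv k) (bv i)]
      have := symm2 hU h1 hx (bv k) (bv i)
      rw [this]
    have h4 : ∑ i : Fin n, ⟪fderiv ℝ u x (bv i), fderiv ℝ (lap u) x (bv i)⟫ =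
        ∑ k : Fin n, ∑ i : Fin n, ⟪fderiv ℝ u x (bv i),
          fderiv ℝ (fderiv ℝ (fderiv ℝ u)) x (bv k) (bv k) (bv i)⟫ := by
      rw [Finset.sum_comm]
      refine Finset.sum_congr rfl (fun i _ => ?_)
      rw [hlap i, inner_sum]
      refine Finset.sum_congr rfl (fun k _ => ?_)
      rw [hswap k i]
    have h5 : ∀ k : Fin n, ∑ i : Fin n, 2 * (⟪fderiv ℝ u x (bv i),
            fderiv ℝ (fderiv ℝ (fderiv ℝ u)) x (bv k) (bv k) (bv i)⟫ +
          ‖fderiv ℝ (fderiv ℝ u) x (bv k) (bv i)‖ ^ 2) =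
        2 * ∑ i : Fin n, ⟪fderiv ℝ u x (bv i),
            fderiv ℝ (fderiv ℝ (fderiv ℝ u)) x (bv k) (bv k) (bv i)⟫ +
          2 * ∑ i : Fin n, ‖fderiv ℝ (fderiv ℝ u) x (bv k) (bv i)‖ ^ 2 := by
      intro k
      rw [← Finset.mul_sum, Finset.sum_add_distrib]
      ring
    rw [Finset.sum_congr rfl (fun k _ => h5 k), Finset.sum_add_distrib, ← Finset.mul_sum,
      ← Finset.mul_sum, ← h4, hsum]
    have h6 : ∑ k : Fin n, ∑ i : Fin n, ‖fderiv ℝ (fderiv ℝ u) x (bv k) (bv i)‖ ^ 2 = hsq u x :=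
      rfl
    rw [h6]
    ring
  · intro v
    rw [dq hU hu hx v, ← Finset.mul_sum, abs_mul, abs_of_pos (by norm_num : (0 : ℝ) < 2)]
    set D := fderiv ℝ u x with hD
    set D2 := fderiv ℝ (fderiv ℝ u) x with hD2
    have hbv : v = ∑ k : Fin n, v k • (bv k : E n) := by
      ext j
      simp only [bv, WithLp.ofLp_sum, WithLp.ofLp_smul, Finset.sum_apply, Pi.smul_apply,
        PiLp.ofLp_single, Pi.single_apply, smul_eq_mul, mul_ite, mul_one, mul_zero,
        Finset.sum_ite_eq, Finset.mem_univ, if_true]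
    have hv : ∀ i : Fin n, ‖D2 v (bv i)‖ ^ 2 ≤ ‖v‖ ^ 2 * ∑ k : Fin n, ‖D2 (bv k) (bv i)‖ ^ 2 := by
      intro i
      have e1 : D2 v (bv i) = ∑ k : Fin n, v k • D2 (bv k) (bv i) := by
        conv_lhs => rw [hbv]
        rw [map_sum, sum_apply]
        refine Finset.sum_congr rfl (fun k _ => ?_)
        rw [map_smul, smul_apply]
      have e2 : ‖D2 v (bv i)‖ ≤ ∑ k : Fin n, |v k| * ‖D2 (bv k) (bv i)‖ := by
        rw [e1]
        refine (norm_sum_le _ _).trans (Finset.sum_le_sum (fun k _ => ?_))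
        rw [norm_smul, Real.norm_eq_abs]
      have e3 : (∑ k : Fin n, |v k| * ‖D2 (bv k) (bv i)‖) ^ 2 ≤
          (∑ k : Fin n, |v k| ^ 2) * ∑ k : Fin n, ‖D2 (bv k) (bv i)‖ ^ 2 :=
        Finset.sum_mul_sq_le_sq_mul_sq _ _ _
      have e4 : ∑ k : Fin n, |v k| ^ 2 = ‖v‖ ^ 2 := by
        rw [EuclideanSpace.norm_sq_eq]
        rfl
      calc ‖D2 v (bv i)‖ ^ 2 ≤ (∑ k : Fin n, |v k| * ‖D2 (bv k) (bv i)‖) ^ 2 :=
            pow_le_pow_left₀ (norm_nonneg _) e2 2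
        _ ≤ _ := by rw [← e4]; exact e3
    have hA : ∑ i : Fin n, ‖D2 v (bv i)‖ ^ 2 ≤ ‖v‖ ^ 2 * hsq u x := by
      calc ∑ i : Fin n, ‖D2 v (bv i)‖ ^ 2
          ≤ ∑ i : Fin n, ‖v‖ ^ 2 * ∑ k : Fin n, ‖D2 (bv k) (bv i)‖ ^ 2 :=
            Finset.sum_le_sum (fun i _ => hv i)
        _ = ‖v‖ ^ 2 * hsq u x := by
            rw [← Finset.mul_sum, Finset.sum_comm]
            rfl
    have hB : |∑ i : Fin n, ⟪D (bv i), D2 v (bv i)⟫| ≤
        ∑ i : Fin n, ‖D (bv i)‖ * ‖D2 v (bv i)‖ :=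
      (Finset.abs_sum_le_sum_abs _ _).trans
        (Finset.sum_le_sum (fun i _ => abs_real_inner_le_norm _ _))
    have hC : ∑ i : Fin n, ‖D (bv i)‖ * ‖D2 v (bv i)‖ ≤
        Real.sqrt (∑ i : Fin n, ‖D (bv i)‖ ^ 2) * Real.sqrt (∑ i : Fin n, ‖D2 v (bv i)‖ ^ 2) :=
      Real.sum_mul_le_sqrt_mul_sqrt _ _ _
    have hE : Real.sqrt (∑ i : Fin n, ‖D2 v (bv i)‖ ^ 2) ≤ ‖v‖ * Real.sqrt (hsq u x) := by
      calc Real.sqrt (∑ i : Fin n, ‖D2 v (bv i)‖ ^ 2) ≤ Real.sqrt (‖v‖ ^ 2 * hsq u x) :=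
            Real.sqrt_le_sqrt hA
        _ = ‖v‖ * Real.sqrt (hsq u x) := by
            rw [Real.sqrt_mul (sq_nonneg _), Real.sqrt_sq (norm_nonneg _)]
    have hF : Real.sqrt (∑ i : Fin n, ‖D (bv i)‖ ^ 2) = Real.sqrt (nsq D) := rfl
    calc 2 * |∑ i : Fin n, ⟪D (bv i), D2 v (bv i)⟫|
        ≤ 2 * (Real.sqrt (nsq D) * (‖v‖ * Real.sqrt (hsq u x))) := by
          apply mul_le_mul_of_nonneg_left _ (by norm_num)
          refine (hB.trans hC).trans ?_
          rw [hF]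
          exact mul_le_mul_of_nonneg_left hE (Real.sqrt_nonneg _)
      _ = 2 * ‖v‖ * Real.sqrt (nsq D) * Real.sqrt (hsq u x) := by ring

end Pool.Agent.H13.SN
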