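import Pool.Agent.H87.SN.Targets

/-!
# Row CLA of the board snk (helper87, MP_2697e3_an)

From the weak objects to the neck.
-/

namespace Pool.Agent.H13.SN

open Pool.Agent.H87.SN
open MeasureTheory Metric Set Filter Topology
open scoped ContDiff RealInnerProductSpace

theorem pf_CL1 : T_CL1 := by
  intro n m N U u hN hU hUb hu hae x hx
  by_contra hcon
  have hV : IsOpen (U ∩ u ⁻¹' Nᶜ) := hu.isOpen_inter_preimage hU hN.isClosed.isOpen_compl
  have hne : (U ∩ u ⁻¹' Nᶜ).Nonempty := ⟨x, hx, hcon⟩
  have hpos : 0 < volume (U ∩ u ⁻¹' Nᶜ) := hV.measure_pos volume hne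
  have hzero : volume (U ∩ u ⁻¹' Nᶜ) = 0 := by
    have h1 : volume.restrict (ball (0 : E n) 2) {y | ¬ u y ∈ N} = 0 := ae_iff.mp hae
    have h2 : volume.restrict (ball (0 : E n) 2) (U ∩ u ⁻¹' Nᶜ) = 0 :=
      measure_mono_null (fun y hy => hy.2) h1
    rw [Measure.restrict_apply hV.measurableSet] at h2
    have h3 : (U ∩ u ⁻¹' Nᶜ) ∩ ball (0 : E n) 2 = U ∩ u ⁻¹' Nᶜ :=
      inter_eq_left.mpr (fun y hy => hUb hy.1)
    rwa [h3] at h2
  exact hpos.ne' hzero

theorem clm_ext_bv {n : ℕ} {F : Type*} [NormedAddCommGroup F] [NormedSpace ℝ F]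
    {L L' : E n →L[ℝ] F} (h : ∀ i : Fin n, L (bv i) = L' (bv i)) : L = L' := by
  ext v
  have hbv : v = ∑ k : Fin n, v k • (bv k : E n) := by
    ext j
    simp only [bv, WithLp.ofLp_sum, WithLp.ofLp_smul, Finset.sum_apply, Pi.smul_apply,
      PiLp.ofLp_single, Pi.single_apply, smul_eq_mul, mul_ite, mul_one, mul_zero,
      Finset.sum_ite_eq, Finset.mem_univ, if_true]
  rw [hbv, map_sum, map_sum]
  refine Finset.sum_congr rfl (fun k _ => ?_)
  rw [map_smul, map_smul, h k]

theorem int_smul {n m : ℕ} {U : Set (E n)} {f : E n → E m} {g : E n → ℝ}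
    (hf : LocallyIntegrableOn f U volume) (hg : Continuous g) (hc : HasCompactSupport g)
    (hs : tsupport g ⊆ U) : Integrable (fun x => g x • f x) volume := by
  have h1 : IntegrableOn f (tsupport g) volume := hf.integrableOn_compact_subset hs hc
  have h2 : IntegrableOn (fun x => g x • f x) (tsupport g) volume :=
    h1.continuousOn_smul hg.continuousOn hc
  refine (integrableOn_iff_integrable_of_support_subset ?_).mp h2
  intro x hx
  apply subset_tsupport g
  intro h0
  apply hx
  simp only [h0, zero_smul]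

theorem pf_CL2 (hIBP : T_IBP) : T_CL2 := by
  intro n m U u G hW hU hUb hu
  have hfin : IsFiniteMeasure (volume.restrict (ball (0 : E n) 2)) :=
    ⟨by
      rw [Measure.restrict_apply MeasurableSet.univ, univ_inter]
      exact measure_ball_lt_top⟩
  have hDu : ContinuousOn (fderiv ℝ u) U := hu.continuousOn_fderiv_of_isOpen hU (by simp)
  have key : ∀ v : E n, ∀ᵐ x ∂volume, x ∈ U → G x v - fderiv ℝ u x v = 0 := by
    intro v
    have hG1 : IntegrableOn (fun x => G x v) (ball (0 : E n) 2) volume := by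
      have h1 : MemLp (fun x => G x v) 2 (volume.restrict (ball (0 : E n) 2)) :=
        (ContinuousLinearMap.apply ℝ (E m) v).comp_memLp' hW.memLp_deriv
      exact h1.integrable (by norm_num)
    have hG2 : LocallyIntegrableOn (fun x => G x v) U volume :=
      (hG1.mono_set hUb).locallyIntegrableOn
    have hD2 : LocallyIntegrableOn (fun x => fderiv ℝ u x v) U volume :=
      (hDu.clm_apply continuousOn_const).locallyIntegrableOn hU.measurableSet
    apply hU.ae_eq_zero_of_integral_contDiff_smul_eq_zero (hG2.sub hD2)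
    intro g hg hc hs
    have hi1 := int_smul hG2 hg.continuous hc hs
    have hi2 := int_smul hD2 hg.continuous hc hs
    have e1 := hW.weak g ⟨hg, hc, hs.trans hUb⟩ v
    have e2 := hIBP.1 n m U g u v hU (hg.of_le (by simp)) hc hs (hu.of_le (by simp))
    have e3 : ∫ x, g x • (G x v - fderiv ℝ u x v) =
        (∫ x, g x • G x v) - ∫ x, g x • fderiv ℝ u x v := by
      rw [← integral_sub hi1 hi2]
      refine integral_congr_ae (Eventually.of_forall (fun x => ?_))
      simp only [smul_sub]
    refine e3.trans ?_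
    rw [e2, e1]
    abel
  rw [ae_restrict_iff' hU.measurableSet]
  have hall : ∀ᵐ x ∂volume, ∀ i : Fin n, x ∈ U → G x (bv i) - fderiv ℝ u x (bv i) = 0 :=
    ae_all_iff.mpr (fun i => key (bv i))
  filter_upwards [hall] with x hx hxU
  exact clm_ext_bv (fun i => sub_eq_zero.mp (hx i hxU))

end Pool.Agent.H13.SN
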